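import Pool.Agent.Helper20.MH.Goals

/-!
# Packet MH-PRM: the parameters for machines with several heads
-/

namespace Pool.Agent.Helper64.MH

open Pool.Agent.Helper65.LinSpace Pool.Agent.Helper78.Mpc Pool.Agent.Helper28.Ram Finset Filter
open Pool.Agent.Helper65.OH (kap)
open Pool.Agent.Helper28.Long (ZL)
open Pool.Agent.Helper65.RT (qT CT LSM)
open Pool.Agent.Helper20.MH

theorem N_le_qT (n : ℕ) : n + 1 ≤ qT n * ll n := by
  have hp := ll_pos n
  have := Nat.lt_div_mul_add (a := n) (b := ll n) hp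
  unfold qT
  rw [add_mul, one_mul]
  omega

theorem le_qT {n X : ℕ} (h : (X : ℝ) * (ll n : ℝ) ≤ 4 * ((n : ℝ) + 1)) : X ≤ 4 * qT n := by
  have h1 : X * ll n ≤ 4 * (n + 1) := by exact_mod_cast h
  have h2 := N_le_qT n
  have h3 : X * ll n ≤ (4 * qT n) * ll n := by
    calc X * ll n ≤ 4 * (n + 1) := h1
      _ ≤ 4 * (qT n * ll n) := Nat.mul_le_mul_left _ h2
      _ = _ := by ring
  exact Nat.le_of_mul_le_mul_right h3 (ll_pos n)

/-- The first hypothesis in terms of the root `w`. -/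
theorem hyp1 {e : ℕ} {r t L u N C1 C Q w : ℝ} (ht : 1 ≤ t) (hL : 1 ≤ L) (hu : 1 ≤ u)
    (hN : 0 < N) (hC : C ≤ C1) (hC1 : 0 ≤ C1) (hQ : 0 < Q) (hQN : Q * t * (L * u) = N)
    (hw : w = Q ^ (((2 * e + 1 : ℕ) : ℝ)⁻¹))
    (h1 : r * t ^ (((e + 1 : ℕ) : ℝ) / (2 * ((e + 1 : ℕ) : ℝ) - 1)) * L ^ 4 ≤
      C * N ^ (1 + ((e + 1 : ℕ) : ℝ) / (2 * ((e + 1 : ℕ) : ℝ) - 1))) :
    r * L ^ 3 ≤ C1 * N * w ^ (e + 1) * u := by
  set q : ℝ := ((e + 1 : ℕ) : ℝ) / (2 * ((e + 1 : ℕ) : ℝ) - 1) with hq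
  set p : ℝ := ((2 * e + 1 : ℕ) : ℝ)⁻¹ with hp
  have hqp : q = p * ((e + 1 : ℕ) : ℝ) := by
    rw [hq, hp]
    push_cast
    have : (2 : ℝ) * ((e : ℝ) + 1) - 1 = 2 * e + 1 := by ring
    rw [this, div_eq_mul_inv, mul_comm]
  have key : ∀ x : ℝ, 0 ≤ x → x ^ q = (x ^ p) ^ (e + 1) := by
    intro x hx
    rw [hqp, Real.rpow_mul hx, Real.rpow_natCast]
  have ht0 : 0 < t := by linarith
  have hL0 : 0 < L := by linarith
  have hu0 : 0 < u := by linarith
  have hLu : 1 ≤ L * u := by nlinarith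
  rw [Real.rpow_add hN, Real.rpow_one, key t ht0.le, key N hN.le] at h1
  set τ := t ^ p with hτ
  set lam := (L * u) ^ p with hlam
  have hνw : N ^ p = w * τ * lam := by
    rw [← hQN, Real.mul_rpow (by positivity) (by positivity), Real.mul_rpow hQ.le ht0.le, hw]
  have hp0 : 0 ≤ p := by positivity
  have hlam1 : 1 ≤ lam := Real.one_le_rpow hLu hp0
  have hlam2 : lam ^ (2 * e + 1) = L * u := Real.rpow_inv_natCast_pow (by positivity) (by omega)
  have hlam3 : lam ^ (e + 1) ≤ L * u := by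
    rw [← hlam2]
    exact pow_le_pow_right₀ hlam1 (by omega)
  have hτ0 : 0 < τ := Real.rpow_pos_of_pos ht0 p
  have hw0 : 0 < w := by
    rw [hw]
    exact Real.rpow_pos_of_pos hQ p
  rw [hνw] at h1
  have h2 : (r * L ^ 3) * (τ ^ (e + 1) * L) ≤ (C1 * N * w ^ (e + 1) * u) * (τ ^ (e + 1) * L) := by
    calc (r * L ^ 3) * (τ ^ (e + 1) * L) = r * τ ^ (e + 1) * L ^ 4 := by ring
      _ ≤ C * (N * (w * τ * lam) ^ (e + 1)) := h1
      _ ≤ C1 * (N * (w * τ * lam) ^ (e + 1)) := by gcongr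
      _ = C1 * N * w ^ (e + 1) * τ ^ (e + 1) * lam ^ (e + 1) := by
          rw [mul_pow, mul_pow]
          ring
      _ ≤ C1 * N * w ^ (e + 1) * τ ^ (e + 1) * (L * u) := by gcongr
      _ = _ := by ring
  exact le_of_mul_le_mul_right h2 (by positivity)


/-- The choice of the numbers `c`, `R`, `E` and `d`. -/
theorem choice {e : ℕ} {w Q : ℝ} (hw : 1 ≤ w) (hQ : Q = w ^ (2 * e + 1)) (r : ℕ) :
    ∃ c R E d : ℕ, 1 ≤ c ∧ (c : ℝ) ≤ w ∧ (R : ℝ) ≤ Q ∧ 1 ≤ d ∧ r ≤ d * (R * c) ∧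
      ((d : ℝ) - 1) * Q ≤ 2 * r ∧
      1 + R + (3 ^ (e + 1) * c ^ e + 1) < E * E ∧ (E : ℝ) ≤ 2 * (4 + 3 ^ (e + 1)) * w ^ e := by
  have hw0 : (0 : ℝ) ≤ w := by linarith
  set c := ⌊w⌋₊ with hc
  have hc1 : 1 ≤ c := Nat.le_floor (by exact_mod_cast hw)
  have hcw : (c : ℝ) ≤ w := Nat.floor_le hw0
  have hwc : w < c + 1 := Nat.lt_floor_add_one w
  have hc1' : (1 : ℝ) ≤ c := by exact_mod_cast hc1
  have hc0 : (0 : ℝ) < c := by linarith
  have hw2c : w ≤ 2 * c := by linarith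
  have hQ1 : 1 ≤ Q := by
    rw [hQ]
    exact one_le_pow₀ hw
  have hwQ : w ≤ Q := by
    rw [hQ]
    exact le_self_pow₀ hw (by omega)
  set R := ⌊Q / c⌋₊ with hR
  have hx1 : 1 ≤ Q / c := by
    rw [le_div_iff₀ hc0]
    linarith
  have hR1 : 1 ≤ R := Nat.le_floor (by exact_mod_cast hx1)
  have hRx : (R : ℝ) ≤ Q / c := Nat.floor_le (by linarith)
  have hxR : Q / c < R + 1 := Nat.lt_floor_add_one _
  have hR1' : (1 : ℝ) ≤ R := by exact_mod_cast hR1
  have hRQ : (R : ℝ) ≤ Q := hRx.trans (div_le_self (by linarith) hc1')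
  have hQRc : Q ≤ 2 * (R * c) := by
    have h1 : Q / c ≤ 2 * R := by linarith
    rw [div_le_iff₀ hc0] at h1
    linarith
  have hx2 : Q / c ≤ 2 * (w ^ e) ^ 2 := by
    rw [div_le_iff₀ hc0, hQ]
    calc w ^ (2 * e + 1) = (w ^ e) ^ 2 * w := by ring
      _ ≤ (w ^ e) ^ 2 * (2 * c) := by gcongr
      _ = _ := by ring
  have hT1 : 1 ≤ w ^ e := one_le_pow₀ hw
  have hT2 : w ^ e ≤ (w ^ e) ^ 2 := le_self_pow₀ hT1 (by norm_num)
  have hcT : (c : ℝ) ^ e ≤ w ^ e := pow_le_pow_left₀ hc0.le hcw e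
  set F := 1 + R + (3 ^ (e + 1) * c ^ e + 1) with hF
  set E := Nat.sqrt F + 1 with hE
  have hE1 : F < E * E := Nat.lt_succ_sqrt F
  have hs1 : 1 ≤ Nat.sqrt F := Nat.sqrt_pos.2 (by omega)
  have hE2 : E * E ≤ 4 * F := by
    have h1 : Nat.sqrt F * Nat.sqrt F ≤ F := Nat.sqrt_le F
    calc E * E ≤ (2 * Nat.sqrt F) * (2 * Nat.sqrt F) := Nat.mul_le_mul (by omega) (by omega)
      _ = 4 * (Nat.sqrt F * Nat.sqrt F) := by ring
      _ ≤ _ := Nat.mul_le_mul_left _ h1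
  have hFr : (F : ℝ) ≤ (4 + 3 ^ (e + 1)) * (w ^ e) ^ 2 := by
    have h1 : (F : ℝ) = 2 + R + 3 ^ (e + 1) * (c : ℝ) ^ e := by
      rw [hF]
      push_cast
      ring
    have h3 : (3 : ℝ) ^ (e + 1) * (c : ℝ) ^ e ≤ 3 ^ (e + 1) * (w ^ e) ^ 2 := by
      gcongr
      exact hcT.trans hT2
    rw [h1]
    have h4 : (1 : ℝ) ≤ (w ^ e) ^ 2 := hT1.trans hT2
    have h5 : (R : ℝ) ≤ 2 * (w ^ e) ^ 2 := hRx.trans hx2
    calc (2 : ℝ) + R + 3 ^ (e + 1) * (c : ℝ) ^ e ≤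
        2 * (w ^ e) ^ 2 + 2 * (w ^ e) ^ 2 + 3 ^ (e + 1) * (w ^ e) ^ 2 := by linarith
      _ = _ := by ring
  have hEr : (E : ℝ) ≤ 2 * (4 + 3 ^ (e + 1)) * w ^ e := by
    have h1 : (E : ℝ) * E ≤ 4 * F := by exact_mod_cast hE2
    have h3 : (1 : ℝ) ≤ 4 + 3 ^ (e + 1) := by
      have : (0 : ℝ) ≤ 3 ^ (e + 1) := by positivity
      linarith
    have h4 : (E : ℝ) ^ 2 ≤ (2 * (4 + 3 ^ (e + 1)) * w ^ e) ^ 2 := by
      calc (E : ℝ) ^ 2 = E * E := by ring
        _ ≤ 4 * F := h1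
        _ ≤ 4 * ((4 + 3 ^ (e + 1)) * (w ^ e) ^ 2) := by gcongr
        _ = 4 * (4 + 3 ^ (e + 1)) * 1 * (w ^ e) ^ 2 := by ring
        _ ≤ 4 * (4 + 3 ^ (e + 1)) * (4 + 3 ^ (e + 1)) * (w ^ e) ^ 2 := by gcongr
        _ = _ := by ring
    exact (pow_le_pow_iff_left₀ (Nat.cast_nonneg _) (by positivity) (by norm_num)).1 h4
  have hRc : 0 < R * c := Nat.mul_pos hR1 hc1
  refine ⟨c, R, E, r / (R * c) + 1, hc1, hcw, hRQ, Nat.le_add_left 1 _, ?_, ?_, hE1, hEr⟩
  · have := Nat.lt_div_mul_add (a := r) (b := R * c) hRc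
    rw [add_mul, one_mul]
    omega
  · have h1 : r / (R * c) * (R * c) ≤ r := Nat.div_mul_le_self _ _
    have h2 : ((r / (R * c) : ℕ) : ℝ) * (R * c) ≤ r := by exact_mod_cast h1
    push_cast
    have h3 : (0 : ℝ) ≤ ((r / (R * c) : ℕ) : ℝ) := Nat.cast_nonneg _
    calc (((r / (R * c) : ℕ) : ℝ) + 1 - 1) * Q = ((r / (R * c) : ℕ) : ℝ) * Q := by ring
      _ ≤ ((r / (R * c) : ℕ) : ℝ) * (2 * (R * c)) := by gcongr
      _ = 2 * (((r / (R * c) : ℕ) : ℝ) * (R * c)) := by ring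
      _ ≤ 2 * r := by linarith

/-- The real inequalities. -/
theorem reals {e : ℕ} {w Q T t L u N C1 c1 kD M r d : ℝ} (hw : 1 ≤ w) (hT : T = w ^ e)
    (hQ : Q = w ^ (2 * e + 1)) (huL : u * u = L) (hL1 : 1 ≤ L) (htL : L ≤ t)
    (hQN : Q * t * (L * u) = N) (hr : 0 ≤ r) (hc1 : 1 ≤ c1) (hC1 : 1 ≤ C1) (hkD : 1 ≤ kD)
    (hM : M = 200 * c1 ^ 2 * kD * C1) (huM : M ≤ u)
    (h1 : r * L ^ 3 ≤ C1 * N * w ^ (e + 1) * u) (hd : (d - 1) * Q ≤ 2 * r) :
    d * T * u ^ 5 ≤ 3 * C1 * N ∧ T * u ^ 5 ≤ N ∧ Q * u ^ 5 ≤ N ∧ r ≤ N ^ 2 := by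
  have hu200 : 200 ≤ u := by
    have h2 : (1 : ℝ) ≤ c1 ^ 2 := one_le_pow₀ hc1
    have h3 : (1 : ℝ) ≤ c1 ^ 2 * kD * C1 := one_le_mul_of_one_le_of_one_le
      (one_le_mul_of_one_le_of_one_le h2 hkD) hC1
    nlinarith
  have hu0 : 0 < u := by linarith
  have hw0 : 0 < w := by linarith
  have hL0 : 0 < L := by linarith
  have hT1 : 1 ≤ T := by
    rw [hT]
    exact one_le_pow₀ hw
  have hQT : Q = T * (T * w) := by
    rw [hQ, hT]
    ring
  have hT0 : 0 < T := by linarith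
  have hTw : 0 < T * w := by positivity
  have hQ0 : 0 < Q := by
    rw [hQT]
    positivity
  have hQ5 : Q * u ^ 5 ≤ N := by
    calc Q * u ^ 5 = Q * (u * u) * (u * u * u) := by ring
      _ = Q * L * (L * u) := by rw [huL]
      _ ≤ Q * t * (L * u) := by gcongr
      _ = N := hQN
  have hN0 : 0 < N := lt_of_lt_of_le (by positivity) hQ5
  have hTQ : T ≤ Q := by
    rw [hQT]
    have : 1 ≤ T * w := one_le_mul_of_one_le_of_one_le hT1 hw
    nlinarith
  have hT5 : T * u ^ 5 ≤ N := by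
    calc T * u ^ 5 ≤ Q * u ^ 5 := by gcongr
      _ ≤ N := hQ5
  have h1' : r * u ^ 5 ≤ C1 * N * (T * w) := by
    have h2 : (r * u ^ 5) * u ≤ (C1 * N * (T * w)) * u := by
      calc (r * u ^ 5) * u = r * (u * u) ^ 3 := by ring
        _ = r * L ^ 3 := by rw [huL]
        _ ≤ C1 * N * w ^ (e + 1) * u := h1
        _ = _ := by
            rw [hT]
            ring
    exact le_of_mul_le_mul_right h2 hu0
  have hdT : (d - 1) * T * u ^ 5 ≤ 2 * C1 * N := by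
    have h2 : ((d - 1) * T * u ^ 5) * (T * w) ≤ (2 * C1 * N) * (T * w) := by
      calc ((d - 1) * T * u ^ 5) * (T * w) = ((d - 1) * (T * (T * w))) * u ^ 5 := by ring
        _ = ((d - 1) * Q) * u ^ 5 := by rw [hQT]
        _ ≤ (2 * r) * u ^ 5 := by gcongr
        _ = 2 * (r * u ^ 5) := by ring
        _ ≤ 2 * (C1 * N * (T * w)) := by gcongr
        _ = _ := by ring
    exact le_of_mul_le_mul_right h2 hTw
  refine ⟨?_, hT5, hQ5, ?_⟩
  · have h2 : N ≤ C1 * N := by nlinarith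
    calc d * T * u ^ 5 = (d - 1) * T * u ^ 5 + T * u ^ 5 := by ring
      _ ≤ 2 * C1 * N + N := add_le_add hdT hT5
      _ ≤ 2 * C1 * N + C1 * N := by linarith
      _ = _ := by ring
  · have hTwQ : T * w ≤ Q := by
      rw [hQT]
      nlinarith
    have hC1u : C1 ≤ u := by
      have h3 : (1 : ℝ) ≤ 200 * c1 ^ 2 * kD := by
        have h2 : (1 : ℝ) ≤ c1 ^ 2 := one_le_pow₀ hc1
        have h4 : (1 : ℝ) ≤ c1 ^ 2 * kD := one_le_mul_of_one_le_of_one_le h2 hkD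
        linarith
      calc C1 = 1 * C1 := by ring
        _ ≤ (200 * c1 ^ 2 * kD) * C1 := by gcongr
        _ = M := by rw [hM]
        _ ≤ u := huM
    have h2 : r * u ^ 5 * u ^ 5 ≤ N ^ 2 * u := by
      calc r * u ^ 5 * u ^ 5 ≤ (C1 * N * (T * w)) * u ^ 5 := by gcongr
        _ ≤ (u * N * Q) * u ^ 5 := by gcongr
        _ = u * N * (Q * u ^ 5) := by ring
        _ ≤ u * N * N := by gcongr
        _ = _ := by ring
    have h3 : u ≤ u ^ 5 * u ^ 5 := by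
      calc u = u * 1 := by ring
        _ ≤ u * (u ^ 4 * u ^ 5) := by
            have h5 : (1 : ℝ) ≤ u ^ 4 * u ^ 5 := one_le_mul_of_one_le_of_one_le
              (one_le_pow₀ (by linarith)) (one_le_pow₀ (by linarith))
            gcongr
        _ = _ := by ring
    have h4 : r * u ≤ N ^ 2 * u := by
      calc r * u ≤ r * (u ^ 5 * u ^ 5) := by gcongr
        _ = r * u ^ 5 * u ^ 5 := by ring
        _ ≤ N ^ 2 * u := h2
    exact le_of_mul_le_mul_right h4 hu0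

theorem gd_ne {n D K S c R E G d : ℕ} (h1 : 0 < c) (h2 : 0 < E) (h3 : 0 < G) (h4 : D ≤ ll n)
    (h5 : S ≤ ZL n) (h6 : 1 + R ≤ G * E) (h7 : (3 * c) ^ D ≤ 4 * (n + 1))
    (h8 : K * (3 * c) ^ D ≤ (G * E - (1 + R)) * (c * K))
    (h9 : G * ((S + 1 + kap n * (K * D) + c * (K * (S + 1))) * E) +
      E * (S + 1 + kap n * (K * D) + K * (3 * c) ^ D * (S + 1)) ≤ 4 * qT n)
    (h10 : d * (G + 2) ≤ 4 * qT n) (h11 : (d + 1) * (kap n * (K * D) + 1) ≤ 4 * qT n)
    (h12 : (d + 1) * ((kap n * (K * D) + 1) * E) ≤ 4 * (n + 1)) :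
    gd n D K S c R E G d ≠ 0 := by
  have hcap : capPow (3 * c) D (4 * (n + 1)) = (3 * c) ^ D := by
    unfold capPow
    exact min_eq_left (by omega)
  unfold gd
  rw [hcap]
  simp only [lt01, le01, if_pos h1, if_pos h2, if_pos h3, if_pos h4, if_pos h5, if_pos h6,
    if_pos h7, if_pos h8, if_pos h9, if_pos h10, if_pos h11, if_pos h12]
  norm_num


theorem fin1 {X B Y A N u : ℝ} (j : ℕ) (hj : j ≤ 4) (hu : 1 ≤ u) (hN : 0 ≤ N) (hB : 0 ≤ B)
    (hX : X ≤ B * (Y * u ^ j)) (hY : Y * u ^ 5 ≤ A * N) (hBA : B * A ≤ u) : X ≤ N := by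
  obtain ⟨i, hi⟩ := Nat.exists_eq_add_of_le hj
  have hu0 : 0 < u := by linarith
  have e1 : u ^ j * u ^ (i + 1) = u ^ 5 := by
    rw [← pow_add]
    congr 1
    omega
  have h1 : u ≤ u ^ (i + 1) := le_self_pow₀ hu (by omega)
  have h2 : X * u ^ (i + 1) ≤ N * u ^ (i + 1) := by
    calc X * u ^ (i + 1) ≤ (B * (Y * u ^ j)) * u ^ (i + 1) := by gcongr
      _ = B * (Y * (u ^ j * u ^ (i + 1))) := by ring
      _ = B * (Y * u ^ 5) := by rw [e1]
      _ ≤ B * (A * N) := by gcongr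
      _ = (B * A) * N := by ring
      _ ≤ u * N := by gcongr
      _ = N * u := by ring
      _ ≤ N * u ^ (i + 1) := by gcongr
  exact le_of_mul_le_mul_right h2 (by positivity)

theorem prm_ok : PRM_stmt := by
  intro D K C hD hK
  obtain ⟨e, rfl⟩ : ∃ e, D = e + 1 := ⟨D - 1, by omega⟩
  obtain ⟨C1, hC1d⟩ : ∃ C1 : ℝ, C1 = |C| + 1 := ⟨_, rfl⟩
  have hC1 : 1 ≤ C1 := by
    rw [hC1d]
    linarith [abs_nonneg C]
  have hCC1 : C ≤ C1 := by
    rw [hC1d]
    linarith [le_abs_self C]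
  obtain ⟨c1, hc1d⟩ : ∃ c1 : ℝ, c1 = 4 + 3 ^ (e + 1) := ⟨_, rfl⟩
  obtain ⟨th, hth⟩ : ∃ th : ℝ, th = 3 ^ (e + 1) := ⟨_, rfl⟩
  have hth1 : 1 ≤ th := by
    rw [hth]
    exact one_le_pow₀ (by norm_num)
  have hc1 : 1 ≤ c1 := by
    rw [hc1d, ← hth]
    linarith
  obtain ⟨kd, hkd⟩ : ∃ kd : ℝ, kd = K * ((e + 1 : ℕ) : ℝ) := ⟨_, rfl⟩
  have hK1 : (1 : ℝ) ≤ K := by exact_mod_cast hK
  have he1 : (1 : ℝ) ≤ ((e + 1 : ℕ) : ℝ) := by exact_mod_cast hD
  have hkd1 : 1 ≤ kd := by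
    rw [hkd]
    exact one_le_mul_of_one_le_of_one_le hK1 he1
  have hKkd : (K : ℝ) ≤ kd := by
    rw [hkd]
    exact le_mul_of_one_le_right (by linarith) he1
  obtain ⟨kD, hkD⟩ : ∃ kD : ℝ, kD = kd * th := ⟨_, rfl⟩
  have hkD1 : 1 ≤ kD := by
    rw [hkD]
    exact one_le_mul_of_one_le_of_one_le hkd1 hth1
  have hkdD : kd ≤ kD := by
    rw [hkD]
    exact le_mul_of_one_le_right (by linarith) hth1
  have hthD : th ≤ kD := by
    rw [hkD]
    exact le_mul_of_one_le_left (by linarith) hkd1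
  obtain ⟨M, hM⟩ : ∃ M : ℝ, M = 200 * c1 ^ 2 * kD * C1 := ⟨_, rfl⟩
  obtain ⟨k, hk⟩ := exists_nat_gt (M ^ 2)
  filter_upwards [ev_ll_ge k, ev_ll_ge (e + 1), Pool.Agent.Helper28.Long.le_ZL C1]
    with n hn hnD hZ r s h1 h2
  have hl : ((ll n : ℕ) : ℝ) = (Nat.log 2 n : ℝ) + 1 := by
    unfold ll
    push_cast
    ring
  rw [← hl] at h1 h2 hZ
  obtain ⟨L, hL⟩ : ∃ L : ℝ, L = (ll n : ℝ) := ⟨_, rfl⟩
  rw [← hL] at h1 h2 hZ
  have hL1 : 1 ≤ L := by
    rw [hL]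
    exact_mod_cast ll_pos n
  obtain ⟨N, hN⟩ : ∃ N : ℝ, N = (n : ℝ) + 1 := ⟨_, rfl⟩
  rw [← hN] at h1 h2 hZ
  have hN0 : 0 < N := by
    rw [hN]
    positivity
  obtain ⟨u, hud⟩ : ∃ u : ℝ, u = Real.sqrt L := ⟨_, rfl⟩
  have huL : u * u = L := by
    rw [hud]
    exact Real.mul_self_sqrt (by linarith)
  have hM1 : 200 ≤ M := by
    have a1 : (1 : ℝ) ≤ c1 ^ 2 := one_le_pow₀ hc1
    have a2 : (1 : ℝ) ≤ c1 ^ 2 * kD * C1 := one_le_mul_of_one_le_of_one_le
      (one_le_mul_of_one_le_of_one_le a1 hkD1) hC1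
    rw [hM]
    nlinarith
  have huM : M ≤ u := by
    rw [hud]
    refine Real.le_sqrt_of_sq_le ?_
    have : (k : ℝ) ≤ L := by
      rw [hL]
      exact_mod_cast hn
    linarith
  have hu1 : 1 ≤ u := by linarith
  have hu0 : 0 < u := by linarith
  obtain ⟨t, ht⟩ : ∃ t : ℝ, t = (s : ℝ) + L := ⟨_, rfl⟩
  rw [← ht] at h1 h2
  have hs0 : (0 : ℝ) ≤ s := Nat.cast_nonneg s
  have htL : L ≤ t := by linarith
  have ht1 : 1 ≤ t := by linarith
  have hst : (s : ℝ) + 1 ≤ t := by linarith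
  -- bounds of the constants
  have cc : c1 ≤ c1 ^ 2 := le_self_pow₀ hc1 (by norm_num)
  have hc2 : (1 : ℝ) ≤ c1 ^ 2 := one_le_pow₀ hc1
  have b1 : C1 ≤ u := by
    have a1 : (1 : ℝ) ≤ 200 * c1 ^ 2 * kD := by
      have := one_le_mul_of_one_le_of_one_le hc2 hkD1
      linarith
    have := mul_le_mul_of_nonneg_right a1 (by linarith : (0 : ℝ) ≤ C1)
    linarith
  have b2 : 200 * (c1 * kD * C1) ≤ u := by
    have a1 : c1 * kD * C1 ≤ c1 ^ 2 * kD * C1 := by gcongr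
    linarith
  have b3 : 200 * (c1 ^ 2 * kD) ≤ u := by
    have a1 : c1 ^ 2 * kD * 1 ≤ c1 ^ 2 * kD * C1 := by gcongr
    linarith
  have b4 : kD ≤ u := by
    have a1 : 1 * kD ≤ c1 ^ 2 * kD := by gcongr
    linarith
  -- the number Q
  have hQ1 : L * u * t ≤ N := by
    have a1 : (L * u * t) * C1 ≤ N * C1 := by
      calc (L * u * t) * C1 ≤ (L * u * t) * u := by gcongr
        _ = t * (L * (u * u)) := by ring
        _ = t * L ^ 2 := by rw [huL]; ring
        _ ≤ C * N := h2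
        _ ≤ C1 * N := by gcongr
        _ = N * C1 := by ring
    exact le_of_mul_le_mul_right a1 (by linarith)
  have hLut : 0 < L * u * t := by positivity
  obtain ⟨Q, hQd⟩ : ∃ Q : ℝ, Q = N / (L * u * t) := ⟨_, rfl⟩
  have hQone : 1 ≤ Q := by
    rw [hQd, le_div_iff₀ hLut]
    linarith
  have hQN : Q * t * (L * u) = N := by
    rw [hQd]
    field_simp
  obtain ⟨w, hwd⟩ : ∃ w : ℝ, w = Q ^ (((2 * e + 1 : ℕ) : ℝ)⁻¹) := ⟨_, rfl⟩
  have hw1 : 1 ≤ w := by
    rw [hwd]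
    exact Real.one_le_rpow hQone (by positivity)
  have hw0 : 0 < w := by linarith
  have hwQ : Q = w ^ (2 * e + 1) := by
    rw [hwd, Real.rpow_inv_natCast_pow (by linarith) (by omega)]
  have H1 := hyp1 ht1 hL1 hu1 hN0 hCC1 (by linarith) (by linarith) hQN hwd h1
  obtain ⟨c, R, E, d, hc, hcw, hRQ, hd, hrd, hdQ, hE, hEw⟩ := choice hw1 hwQ r
  obtain ⟨T, hT⟩ : ∃ T : ℝ, T = w ^ e := ⟨_, rfl⟩
  rw [← hT, ← hc1d] at hEw
  have hT1 : 1 ≤ T := by
    rw [hT]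
    exact one_le_pow₀ hw1
  have hr0 : (0 : ℝ) ≤ r := Nat.cast_nonneg r
  obtain ⟨f1, f2, f3, f4⟩ := reals (T := T) (d := (d : ℝ)) hw1 hT hwQ huL hL1 htL hQN hr0 hc1
    hC1 hkD1 hM huM H1 hdQ
  have hQT : Q = T * T * w := by
    rw [hwQ, hT]
    ring
  have hd1 : (1 : ℝ) ≤ d := by exact_mod_cast hd
  have hc1' : (1 : ℝ) ≤ c := by exact_mod_cast hc
  have hE0 : 1 ≤ E := by
    by_contra hcon
    have : E = 0 := by omega
    subst this
    omega
  have hE1 : (1 : ℝ) ≤ E := by exact_mod_cast hE0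
  have hkap : (kap n : ℝ) ≤ 10 * L := by
    have : (kap n : ℝ) = 4 * L + 6 := by
      unfold kap
      push_cast
      rw [hL]
    linarith
  have hkap0 : (0 : ℝ) ≤ kap n := Nat.cast_nonneg _
  have hkK : (kap n : ℝ) * (K * ((e + 1 : ℕ) : ℝ)) ≤ 10 * L * kd := by
    rw [← hkd]
    gcongr
  have hkK1 : (kap n : ℝ) * (K * ((e + 1 : ℕ) : ℝ)) + 1 ≤ 11 * (kd * L) := by
    have : 1 ≤ kd * L := one_le_mul_of_one_le_of_one_le hkd1 hL1
    linarith
  have hcD : ((3 : ℝ) * c) ^ (e + 1) ≤ th * (T * w) := by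
    calc ((3 : ℝ) * c) ^ (e + 1) = th * (c : ℝ) ^ (e + 1) := by rw [mul_pow, hth]
      _ ≤ th * w ^ (e + 1) := by gcongr
      _ = th * (T * w) := by
          rw [hT]
          ring
  have hTwQ : T * w ≤ Q := by
    rw [hQT]
    have : 0 < T * w := by positivity
    nlinarith
  have hsZ : s ≤ ZL n := by
    refine hZ s ?_
    rw [le_div_iff₀ (by positivity)]
    calc (s : ℝ) * L ^ 2 ≤ t * L ^ 2 := by
          gcongr
          linarith
      _ ≤ C * N := h2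
      _ ≤ C1 * N := by gcongr
  have hnat : ∀ X : ℕ, (X : ℝ) ≤ N → X ≤ n + 1 := by
    intro X hX
    rw [hN] at hX
    exact_mod_cast hX
  have hdT : (d : ℝ) ≤ d * T := le_mul_of_one_le_right (by linarith) hT1
  -- (7)
  have g7 : (3 * c) ^ (e + 1) ≤ 4 * (n + 1) := by
    have a1 : (((3 * c) ^ (e + 1) : ℕ) : ℝ) ≤ N := by
      refine fin1 (B := th) (Y := Q) (A := 1) 0 (by norm_num) hu1 hN0.le (by linarith) ?_
        (by linarith) (by linarith)
      push_cast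
      calc ((3 : ℝ) * c) ^ (e + 1) ≤ th * (T * w) := hcD
        _ ≤ th * Q := by gcongr
        _ = _ := by ring
    have := hnat _ a1
    omega
  have g8 : K * (3 * c) ^ (e + 1) ≤ (E * E - (1 + R)) * (c * K) := by
    have a1 : 3 ^ (e + 1) * c ^ e ≤ E * E - (1 + R) := by omega
    calc K * (3 * c) ^ (e + 1) = (3 ^ (e + 1) * c ^ e) * (c * K) := by
          rw [mul_pow]
          ring
      _ ≤ _ := Nat.mul_le_mul_right _ a1
  have g9 : E * ((s + 1 + kap n * (K * (e + 1)) + c * (K * (s + 1))) * E) +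
      E * (s + 1 + kap n * (K * (e + 1)) + K * (3 * c) ^ (e + 1) * (s + 1)) ≤ 4 * qT n := by
    refine le_qT ?_
    rw [← hL, ← hN]
    push_cast
    have hkK' : (kap n : ℝ) * (K * ((e : ℝ) + 1)) ≤ 10 * L * kd := by
      have := hkK
      push_cast at this
      exact this
    have hwt : t ≤ kd * w * t := by
      have : 1 ≤ kd * w := one_le_mul_of_one_le_of_one_le hkd1 hw1
      exact le_mul_of_one_le_left (by linarith) this
    have hwt2 : L * kd ≤ kd * w * t := by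
      calc L * kd ≤ t * kd := by gcongr
        _ = kd * 1 * t := by ring
        _ ≤ kd * w * t := by gcongr
    have a1 : (s : ℝ) + 1 + kap n * (K * ((e : ℝ) + 1)) + c * (K * (s + 1)) ≤
        12 * (kd * w * t) := by
      have a2 : (c : ℝ) * (K * (s + 1)) ≤ kd * w * t := by
        calc (c : ℝ) * (K * (s + 1)) ≤ w * (kd * t) := by gcongr
          _ = _ := by ring
      linarith
    have a3 : (s : ℝ) + 1 + kap n * (K * ((e : ℝ) + 1)) + K * (3 * (c : ℝ)) ^ (e + 1) * (s + 1) ≤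
        12 * (kD * (T * w) * t) := by
      have a4 : kd * w * t ≤ kD * (T * w) * t := by
        calc kd * w * t ≤ kD * (1 * w) * t := by
              rw [one_mul]
              gcongr
          _ ≤ _ := by gcongr
      have a5 : (K : ℝ) * (3 * (c : ℝ)) ^ (e + 1) * (s + 1) ≤ kD * (T * w) * t := by
        calc (K : ℝ) * (3 * (c : ℝ)) ^ (e + 1) * (s + 1) ≤ kd * (th * (T * w)) * t := by gcongr
          _ = _ := by
              rw [hkD]
              ring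
      linarith
    have a6 : ((E : ℝ) * (((s : ℝ) + 1 + kap n * (K * ((e : ℝ) + 1)) + c * (K * (s + 1))) * E) +
        E * ((s : ℝ) + 1 + kap n * (K * ((e : ℝ) + 1)) + K * (3 * (c : ℝ)) ^ (e + 1) * (s + 1))) ≤
        72 * (c1 ^ 2 * kD) * (Q * t) := by
      have hEE : (0 : ℝ) ≤ E := by linarith
      calc _ ≤ (2 * c1 * T) * ((12 * (kd * w * t)) * (2 * c1 * T)) +
            (2 * c1 * T) * (12 * (kD * (T * w) * t)) := by gcongr
        _ = 48 * (c1 ^ 2 * kd) * (T * T * w * t) + 24 * (c1 * kD) * (T * T * w * t) := by ring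
        _ ≤ 48 * (c1 ^ 2 * kD) * (T * T * w * t) + 24 * (c1 ^ 2 * kD) * (T * T * w * t) := by
            gcongr
        _ = _ := by
            rw [hQT]
            ring
    have a7 : (72 * (c1 ^ 2 * kD) * (Q * t)) * L ≤ N := by
      have a8 : ((72 * (c1 ^ 2 * kD) * (Q * t)) * L) * u ≤ N * u := by
        calc ((72 * (c1 ^ 2 * kD) * (Q * t)) * L) * u = 72 * (c1 ^ 2 * kD) * (Q * t * (L * u)) := by
              ring
          _ = 72 * (c1 ^ 2 * kD) * N := by rw [hQN]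
          _ ≤ u * N := by
              have : 72 * (c1 ^ 2 * kD) ≤ u := by
                have : 0 ≤ c1 ^ 2 * kD := by positivity
                linarith
              gcongr
          _ = _ := by ring
      exact le_of_mul_le_mul_right a8 hu0
    have a9 : (0 : ℝ) ≤ L := by linarith
    calc _ ≤ (72 * (c1 ^ 2 * kD) * (Q * t)) * L := mul_le_mul_of_nonneg_right a6 a9
      _ ≤ N := a7
      _ ≤ 4 * N := by linarith
  have g10 : d * (E + 2) ≤ 4 * qT n := by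
    refine le_qT ?_
    rw [← hL, ← hN]
    push_cast
    have a1 : (d : ℝ) * (E + 2) * L ≤ N := by
      refine fin1 (B := 6 * c1) (Y := (d : ℝ) * T) (A := 3 * C1) 2 (by norm_num) hu1 hN0.le
        (by linarith) ?_ f1 ?_
      · calc (d : ℝ) * (E + 2) * L ≤ (d : ℝ) * (3 * (2 * c1 * T)) * L := by
              gcongr
              linarith
          _ = _ := by
              rw [← huL]
              ring
      · have a2 : c1 * 1 * C1 ≤ c1 * kD * C1 := by gcongr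
        linarith
    linarith
  have g11 : (d + 1) * (kap n * (K * (e + 1)) + 1) ≤ 4 * qT n := by
    refine le_qT ?_
    rw [← hL, ← hN]
    have a1 : (((d + 1) * (kap n * (K * (e + 1)) + 1) : ℕ) : ℝ) * L ≤ N := by
      refine fin1 (B := 22 * kd) (Y := (d : ℝ) * T) (A := 3 * C1) 4 (by norm_num) hu1 hN0.le
        (by linarith) ?_ f1 ?_
      · rw [Nat.cast_mul, Nat.cast_add, Nat.cast_add, Nat.cast_mul, Nat.cast_mul, Nat.cast_one]
        calc ((d : ℝ) + 1) * ((kap n : ℝ) * (K * ((e + 1 : ℕ) : ℝ)) + 1) * L ≤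
              (2 * (d * T)) * (11 * (kd * L)) * L := by
              have : (d : ℝ) + 1 ≤ 2 * (d * T) := by linarith
              gcongr
          _ = _ := by
              rw [← huL]
              ring
      · have a2 : 1 * kd * C1 ≤ c1 * kD * C1 := by gcongr
        linarith
    linarith
  have g12 : (d + 1) * ((kap n * (K * (e + 1)) + 1) * E) ≤ 4 * (n + 1) := by
    have a1 : (((d + 1) * ((kap n * (K * (e + 1)) + 1) * E) : ℕ) : ℝ) ≤ N := by
      refine fin1 (B := 44 * (c1 * kd)) (Y := (d : ℝ) * T) (A := 3 * C1) 2 (by norm_num) hu1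
        hN0.le (by positivity) ?_ f1 ?_
      · rw [Nat.cast_mul, Nat.cast_mul, Nat.cast_add, Nat.cast_add, Nat.cast_mul, Nat.cast_mul,
          Nat.cast_one]
        calc ((d : ℝ) + 1) * (((kap n : ℝ) * (K * ((e + 1 : ℕ) : ℝ)) + 1) * E) ≤
              (2 * d) * ((11 * (kd * L)) * (2 * c1 * T)) := by
              have : (d : ℝ) + 1 ≤ 2 * d := by linarith
              gcongr
          _ = _ := by
              rw [← huL]
              ring
      · have a2 : c1 * kd * C1 ≤ c1 * kD * C1 := by gcongr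
        linarith
    have := hnat _ a1
    omega
  have hgd : gd n (e + 1) K s c R E E d ≠ 0 :=
    gd_ne hc hE0 hE0 hnD hsZ (by omega) g7 g8 g9 g10 g11 g12
  have hZn := Pool.Agent.Helper28.Long.ZL_le n
  refine ⟨?_, by omega, c, R, E, E, d, hgd, hrd, ?_, ?_, ?_, ?_, ?_⟩
  · have a1 : r ≤ (n + 1) ^ 2 := by
      rw [hN] at f4
      exact_mod_cast f4
    have a2 : (n + 1) ^ 2 ≤ 2 ^ (2 * ll n) := by
      rw [mul_comm, pow_mul]
      exact Nat.pow_le_pow_left (lt_two_pow_ll n) 2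
    have a3 : 2 ^ (2 * ll n) < 2 ^ (kap n - 1) := by
      refine Nat.pow_lt_pow_right (by norm_num) ?_
      unfold kap
      omega
    omega
  · have a1 : (c : ℝ) ≤ N := by
      refine fin1 (B := 1) (Y := Q) (A := 1) 0 (by norm_num) hu1 hN0.le (by norm_num) ?_
        (by linarith) (by linarith)
      calc (c : ℝ) ≤ w := hcw
        _ ≤ T * w := le_mul_of_one_le_left hw0.le hT1
        _ ≤ Q := hTwQ
        _ = _ := by ring
    have := hnat _ a1
    omega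
  · have a1 : (R : ℝ) ≤ N := by
      refine fin1 (B := 1) (Y := Q) (A := 1) 0 (by norm_num) hu1 hN0.le (by norm_num) ?_
        (by linarith) (by linarith)
      calc (R : ℝ) ≤ Q := hRQ
        _ = _ := by ring
    have := hnat _ a1
    omega
  · have a1 : (E : ℝ) ≤ N := by
      refine fin1 (B := 2 * c1) (Y := T) (A := 1) 0 (by norm_num) hu1 hN0.le (by linarith) ?_
        (by linarith) ?_
      · calc (E : ℝ) ≤ 2 * c1 * T := hEw
          _ = _ := by ring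
      · have a2 : c1 * 1 * 1 ≤ c1 * kD * C1 := by gcongr
        linarith
    have := hnat _ a1
    omega
  · have a1 : (E : ℝ) ≤ N := by
      refine fin1 (B := 2 * c1) (Y := T) (A := 1) 0 (by norm_num) hu1 hN0.le (by linarith) ?_
        (by linarith) ?_
      · calc (E : ℝ) ≤ 2 * c1 * T := hEw
          _ = _ := by ring
      · have a2 : c1 * 1 * 1 ≤ c1 * kD * C1 := by gcongr
        linarith
    have := hnat _ a1
    omega
  · have a1 : (d : ℝ) ≤ N := by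
      refine fin1 (B := 1) (Y := (d : ℝ) * T) (A := 3 * C1) 0 (by norm_num) hu1 hN0.le
        (by norm_num) ?_ f1 ?_
      · calc (d : ℝ) ≤ d * T := hdT
          _ = _ := by ring
      · have a2 : 1 * 1 * C1 ≤ c1 * kD * C1 := by gcongr
        linarith
    have := hnat _ a1
    omega

end Pool.Agent.Helper64.MH
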